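import Pool.Agent.C4W.Weighted

/-!
# From vertex weights to fractional and integral clique covers
-/

set_option autoImplicit false
set_option linter.unusedSectionVars false

open Finset

namespace Pool.Agent.C4W

variable {V : Type*} [Fintype V]

/-- If for all nonnegative weights some clique carries a `1/ρ` fraction of the weight, then there is a
fractional clique cover of total weight at most `ρ` (Hahn–Banach). -/
theorem frac_cover [DecidableEq V] (G : SimpleGraph V) {ρ : ℝ} (hρ0 : 0 < ρ)
    (hρ : ∀ w : V → ℝ, (∀ v, 0 ≤ w v) →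
      ∃ K : Finset V, G.IsClique (K : Set V) ∧ ∑ v, w v ≤ ρ * ∑ v ∈ K, w v) :
    ∃ (F : Finset (Finset V)) (y : Finset V → ℝ), (∀ K ∈ F, G.IsClique (K : Set V) ∧ 0 ≤ y K) ∧
      (∀ v, 1 ≤ ∑ K ∈ F with v ∈ K, y K) ∧ ∑ K ∈ F, y K ≤ ρ := by
  classical
  let z : Finset V → V → ℝ := fun K v => if G.IsClique (K : Set V) ∧ v ∈ K then ρ else 0
  let T : (Finset V → ℝ) →ₗ[ℝ] (V → ℝ) := Fintype.linearCombination ℝ z
  have hT : ∀ (y : Finset V → ℝ) (v : V), T y v = ∑ K, y K * z K v := by
    intro y v
    simp only [T, Fintype.linearCombination_apply, Finset.sum_apply, Pi.smul_apply, smul_eq_mul]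
  have hTs : ∀ K : Finset V, T (Pi.single K 1) = z K := by
    intro K
    funext v
    rw [hT]
    simp [Pi.single_apply]
  have hcomp : IsCompact (T '' stdSimplex ℝ (Finset V)) :=
    (isCompact_stdSimplex ℝ (Finset V)).image (LinearMap.continuous_of_finiteDimensional T)
  have hconv : Convex ℝ (T '' stdSimplex ℝ (Finset V)) := (convex_stdSimplex ℝ (Finset V)).linear_image T
  have hmeet : ¬ Disjoint (T '' stdSimplex ℝ (Finset V)) (Set.Ici (1 : V → ℝ)) := by
    intro hdis
    obtain ⟨f, u, t, h1, h2, h3⟩ := geometric_hahn_banach_compact_closed hconv hcomp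
      (convex_Ici (1 : V → ℝ)) isClosed_Ici hdis
    have hf : ∀ x : V → ℝ, f x = ∑ v, x v * f (fun j => if v = j then 1 else 0) := by
      intro x
      have := (f : (V → ℝ) →ₗ[ℝ] ℝ).pi_apply_eq_sum_univ x
      simpa using this
    have hw : ∀ v, 0 ≤ f (fun j => if v = j then 1 else 0) := by
      intro v
      by_contra hneg
      push Not at hneg
      set e : V → ℝ := fun j => if v = j then 1 else 0 with he
      have h4 : t < f 1 := h3 1 (Set.mem_Ici.2 le_rfl)
      set c : ℝ := (f 1 - t) / (- f e) with hc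
      have hc0 : 0 ≤ c := div_nonneg (by linarith) (by linarith)
      have h5 : t < f (1 + c • e) := by
        apply h3
        rw [Set.mem_Ici]
        intro j
        have : 0 ≤ e j := by rw [he]; dsimp only; split_ifs <;> norm_num
        simp only [Pi.add_apply, Pi.one_apply, Pi.smul_apply, smul_eq_mul]
        nlinarith [mul_nonneg hc0 this]
      rw [map_add, map_smul, smul_eq_mul, hc] at h5
      have hne : f e ≠ 0 := hneg.ne
      have h6 : (f 1 - t) / (- f e) * f e = -(f 1 - t) := by
        rw [div_neg, neg_mul, div_mul_cancel₀ _ hne]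
      rw [h6] at h5
      linarith
    obtain ⟨K, hK, hb⟩ := hρ _ hw
    have h4 : f (z K) < u := by
      apply h1
      exact ⟨Pi.single K 1, single_mem_stdSimplex ℝ K, hTs K⟩
    have h5 : t < f 1 := h3 1 (Set.mem_Ici.2 le_rfl)
    rw [hf] at h4 h5
    have h6 : ∑ v, z K v * f (fun j => if v = j then 1 else 0) =
        ρ * ∑ v ∈ K, f (fun j => if v = j then 1 else 0) := by
      rw [mul_sum, ← Finset.sum_subset (subset_univ K)]
      · refine sum_congr rfl fun v hv => ?_
        simp only [z, hK, hv, and_self, if_true]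
      · intro v _ hv
        simp only [z, hv, and_false, if_false, zero_mul]
    rw [h6] at h4
    simp only [Pi.one_apply, one_mul] at h5
    linarith
  rw [Set.not_disjoint_iff] at hmeet
  obtain ⟨x, ⟨y, hy, rfl⟩, hx⟩ := hmeet
  refine ⟨univ.filter (fun K : Finset V => G.IsClique (K : Set V)), fun K => ρ * y K, ?_, ?_, ?_⟩
  · intro K hK
    exact ⟨(mem_filter.1 hK).2, mul_nonneg hρ0.le (hy.1 K)⟩
  · intro v
    have h1 : (1 : ℝ) ≤ T y v := hx v
    rw [hT] at h1
    refine h1.trans (le_of_eq ?_)
    rw [filter_filter, sum_filter]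
    refine sum_congr rfl fun K _ => ?_
    simp only [z]
    split_ifs <;> ring
  · calc ∑ K ∈ univ.filter (fun K : Finset V => G.IsClique (K : Set V)), ρ * y K ≤ ∑ K, ρ * y K :=
          sum_le_sum_of_subset_of_nonneg (filter_subset _ _)
            (fun K _ _ => mul_nonneg hρ0.le (hy.1 K))
      _ = ρ := by rw [← mul_sum, hy.2, mul_one]

lemma harmonic_add_le (a s : ℕ) (b : ℕ) (hb : a + b ≤ s) :
    (harmonic a : ℝ) + b * (1 / (s : ℝ)) ≤ (harmonic (a + b) : ℝ) := by
  induction b with
  | zero => simp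
  | succ b ih =>
    have h1 := ih (by omega)
    rw [← add_assoc, harmonic_succ]
    have hs : (0 : ℝ) < ((a + b + 1 : ℕ) : ℝ) := by positivity
    have h2 : (1 : ℝ) / s ≤ (((a + b + 1 : ℕ) : ℝ))⁻¹ := by
      rw [one_div]
      exact inv_anti₀ hs (by exact_mod_cast hb)
    push_cast at h2 ⊢
    linarith

/-- The greedy cover by cliques, with its dual weights. -/
theorem greedy [DecidableEq V] (G : SimpleGraph V) (S : Finset V) :
    ∃ (F : Finset (Finset V)) (w : V → ℝ), (∀ K ∈ F, G.IsClique (K : Set V)) ∧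
      (∀ v ∈ S, ∃ K ∈ F, v ∈ K) ∧ (∀ v, 0 ≤ w v) ∧ (#F : ℝ) ≤ ∑ v, w v ∧
      ∀ K : Finset V, G.IsClique (K : Set V) → ∑ v ∈ K, w v ≤ (harmonic #(K ∩ S) : ℝ) := by
  classical
  induction S using Finset.strongInduction with
  | H S ih =>
    rcases S.eq_empty_or_nonempty with rfl | ⟨v0, hv0⟩
    · exact ⟨∅, 0, by simp, by simp, by simp, by simp, by simp⟩
    · obtain ⟨K0, hK0, hmax⟩ := exists_max_image ((univ : Finset V).powerset.filter
        (fun K : Finset V => G.IsClique (K : Set V))) (fun K : Finset V => #(K ∩ S)) ⟨∅, by simp⟩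
      simp only [mem_filter, mem_powerset, subset_univ, true_and] at hK0 hmax
      have hs1 : 1 ≤ #(K0 ∩ S) := by
        have h1 := hmax {v0} (by simp)
        have h2 : ({v0} : Finset V) ∩ S = {v0} := by
          ext a; simp only [mem_inter, mem_singleton]
          exact ⟨fun h => h.1, fun h => ⟨h, h ▸ hv0⟩⟩
        rw [h2, card_singleton] at h1
        exact h1
      have hss : S \ K0 ⊂ S := by
        refine ⟨sdiff_subset, fun hsub => ?_⟩
        obtain ⟨a, ha⟩ := card_pos.1 (show 0 < #(K0 ∩ S) by omega)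
        rw [mem_inter] at ha
        exact (mem_sdiff.1 (hsub ha.2)).2 ha.1
      obtain ⟨F, w, hF, hcov, hw, hcard, hbound⟩ := ih _ hss
      set s : ℕ := #(K0 ∩ S) with hs
      have hs0 : (0 : ℝ) < s := by exact_mod_cast hs1
      refine ⟨insert K0 F, fun v => w v + if v ∈ K0 ∩ S then 1 / (s : ℝ) else 0, ?_, ?_, ?_, ?_, ?_⟩
      · intro K hK
        rcases mem_insert.1 hK with rfl | hK
        · exact hK0
        · exact hF K hK
      · intro v hv
        by_cases hvK : v ∈ K0
        · exact ⟨K0, mem_insert_self _ _, hvK⟩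
        · obtain ⟨K, hK, hvK'⟩ := hcov v (mem_sdiff.2 ⟨hv, hvK⟩)
          exact ⟨K, mem_insert_of_mem hK, hvK'⟩
      · intro v
        have := hw v
        have h2 : (0 : ℝ) ≤ if v ∈ K0 ∩ S then 1 / (s : ℝ) else 0 := by
          split_ifs <;> positivity
        linarith
      · have h1 : (#(insert K0 F) : ℝ) ≤ #F + 1 := by exact_mod_cast card_insert_le K0 F
        have h2 : ∑ v, (if v ∈ K0 ∩ S then 1 / (s : ℝ) else 0) = 1 := by
          rw [← sum_filter, sum_const, filter_mem_eq_inter, univ_inter, ← hs, nsmul_eq_mul]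
          field_simp
        rw [sum_add_distrib, h2]
        linarith
      · intro K hK
        rw [sum_add_distrib]
        have h1 := hbound K hK
        have h2 : ∑ v ∈ K, (if v ∈ K0 ∩ S then 1 / (s : ℝ) else 0) = #(K ∩ (K0 ∩ S)) * (1 / (s : ℝ)) := by
          rw [← sum_filter, sum_const, filter_mem_eq_inter, nsmul_eq_mul]
        have h3 : #(K ∩ (S \ K0)) + #(K ∩ (K0 ∩ S)) = #(K ∩ S) := by
          rw [← card_union_of_disjoint]
          · congr 1
            ext a
            simp only [mem_union, mem_inter, mem_sdiff]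
            tauto
          · rw [disjoint_left]
            intro a ha hb
            simp only [mem_inter, mem_sdiff] at ha hb
            exact ha.2.2 hb.2.1
        have h4 := harmonic_add_le #(K ∩ (S \ K0)) s #(K ∩ (K0 ∩ S)) (by rw [h3]; exact hmax K hK)
        rw [h3] at h4
        rw [h2]
        linarith

end Pool.Agent.C4W
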