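import Pool.Agent.C4D.FourFinal

/-!
# Graphs without induced 4-cycle: vertex weights
-/

set_option autoImplicit false
set_option linter.unusedSectionVars false

open Finset

namespace Pool.Agent.C4W

variable {V : Type*}

/-- The graph obtained from `G` by replacing every vertex `v` by a clique with `m v` vertices. -/
def blow (G : SimpleGraph V) (m : V → ℕ) : SimpleGraph (Σ v, Fin (m v)) where
  Adj x y := x ≠ y ∧ (x.1 = y.1 ∨ G.Adj x.1 y.1)
  symm := ⟨fun _ _ h => ⟨h.1.symm, h.2.elim (fun e => Or.inl e.symm) (fun e => Or.inr e.symm)⟩⟩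
  loopless := ⟨fun _ h => h.1 rfl⟩

lemma blow_adj (G : SimpleGraph V) (m : V → ℕ) (x y : Σ v, Fin (m v)) :
    (blow G m).Adj x y ↔ x ≠ y ∧ (x.1 = y.1 ∨ G.Adj x.1 y.1) := Iff.rfl

lemma blow_free {G : SimpleGraph V} (h : IsEmpty (SimpleGraph.cycleGraph 4 ↪g G)) (m : V → ℕ) :
    IsEmpty (SimpleGraph.cycleGraph 4 ↪g blow G m) := by
  refine ⟨fun f => ?_⟩
  have hadj : ∀ i j, (blow G m).Adj (f i) (f j) ↔ (SimpleGraph.cycleGraph 4).Adj i j :=
    fun i j => f.map_adj_iff
  have key : ∀ i j : Fin 4, i ≠ j → (SimpleGraph.cycleGraph 4).Adj i j →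
      ∃ k, k ≠ i ∧ k ≠ j ∧
        ¬ ((SimpleGraph.cycleGraph 4).Adj i k ↔ (SimpleGraph.cycleGraph 4).Adj j k) := by
    decide
  have hinj : Function.Injective (fun i => (f i).1) := by
    intro i j hij
    by_contra hne
    have hfne : f i ≠ f j := fun e => hne (f.injective e)
    have h1 : (SimpleGraph.cycleGraph 4).Adj i j := (hadj i j).1 ⟨hfne, Or.inl hij⟩
    obtain ⟨k, hki, hkj, hk⟩ := key i j hne h1
    apply hk
    rw [← hadj, ← hadj, blow_adj, blow_adj]
    have e1 : f i ≠ f k := fun e => hki (f.injective e).symm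
    have e2 : f j ≠ f k := fun e => hkj (f.injective e).symm
    have hij' : (f i).1 = (f j).1 := hij
    constructor
    · rintro ⟨-, h2⟩
      exact ⟨e2, by rw [← hij']; exact h2⟩
    · rintro ⟨-, h2⟩
      exact ⟨e1, by rw [hij']; exact h2⟩
  refine h.false ⟨⟨fun i => (f i).1, hinj⟩, ?_⟩
  intro i j
  show G.Adj (f i).1 (f j).1 ↔ _
  rw [← hadj, blow_adj]
  constructor
  · intro hG
    exact ⟨fun e => hG.ne (congrArg Sigma.fst e), Or.inr hG⟩
  · rintro ⟨hne, h' | h'⟩
    · exact absurd (congrArg f (hinj h')) hne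
    · exact h'

variable [Fintype V]

lemma blow_indepNum (G : SimpleGraph V) (m : V → ℕ) (hm : ∀ v, 0 < m v) :
    (blow G m).indepNum = G.indepNum := by
  classical
  apply le_antisymm
  · obtain ⟨s, hs⟩ := (blow G m).exists_isNIndepSet_indepNum
    have hinj : Set.InjOn (Sigma.fst : (Σ v, Fin (m v)) → V) (s : Set (Σ v, Fin (m v))) := by
      intro x hx y hy hxy
      by_contra hne
      exact hs.isIndepSet hx hy hne ⟨hne, Or.inl hxy⟩
    have hind : G.IsIndepSet ((s.image Sigma.fst : Finset V) : Set V) := by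
      intro a ha b hb hab hadj
      simp only [coe_image, Set.mem_image, mem_coe] at ha hb
      obtain ⟨x, hx, rfl⟩ := ha
      obtain ⟨y, hy, rfl⟩ := hb
      have hne : x ≠ y := fun e => hab (congrArg Sigma.fst e)
      exact hs.isIndepSet hx hy hne ⟨hne, Or.inr hadj⟩
    have h1 := hind.card_le_indepNum
    rw [card_image_of_injOn hinj, hs.card_eq] at h1
    exact h1
  · obtain ⟨s, hs⟩ := G.exists_isNIndepSet_indepNum
    let g : V → Σ v, Fin (m v) := fun v => ⟨v, ⟨0, hm v⟩⟩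
    have hg : Function.Injective g := fun a b e => congrArg Sigma.fst e
    have hind : (blow G m).IsIndepSet ((s.image g : Finset _) : Set (Σ v, Fin (m v))) := by
      intro a ha b hb hab hadj
      simp only [coe_image, Set.mem_image, mem_coe] at ha hb
      obtain ⟨x, hx, rfl⟩ := ha
      obtain ⟨y, hy, rfl⟩ := hb
      have hne : x ≠ y := fun e => hab (congrArg g e)
      rcases hadj.2 with h1 | h1
      · exact hne h1
      · exact hs.isIndepSet hx hy hne h1
    have h1 := hind.card_le_indepNum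
    rw [card_image_of_injective _ hg, hs.card_eq] at h1
    exact h1

lemma blow_cliqueNum (G : SimpleGraph V) (m : V → ℕ) :
    ∃ K : Finset V, G.IsClique (K : Set V) ∧ (blow G m).cliqueNum ≤ ∑ v ∈ K, m v := by
  classical
  obtain ⟨s, hs⟩ := (blow G m).exists_isNClique_cliqueNum
  refine ⟨s.image Sigma.fst, ?_, ?_⟩
  · intro a ha b hb hab
    simp only [coe_image, Set.mem_image, mem_coe] at ha hb
    obtain ⟨x, hx, rfl⟩ := ha
    obtain ⟨y, hy, rfl⟩ := hb
    have hne : x ≠ y := fun e => hab (congrArg Sigma.fst e)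
    rcases (hs.isClique hx hy hne).2 with h1 | h1
    · exact absurd h1 hab
    · exact h1
  · rw [← hs.card_eq]
    have h1 : s ⊆ (s.image Sigma.fst).sigma (fun v => (univ : Finset (Fin (m v)))) := by
      intro x hx
      simp only [mem_sigma, mem_image, mem_univ, and_true]
      exact ⟨x, hx, rfl⟩
    calc #s ≤ #((s.image Sigma.fst).sigma (fun v => (univ : Finset (Fin (m v))))) := card_le_card h1
      _ = ∑ v ∈ s.image Sigma.fst, m v := by rw [card_sigma]; simp

/-- positive integer weights -/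
lemma nat_weight (G : SimpleGraph V) (h : IsEmpty (SimpleGraph.cycleGraph 4 ↪g G)) (m : V → ℕ)
    (hm : ∀ v, 0 < m v) :
    ∃ K : Finset V, G.IsClique (K : Set V) ∧
      (∑ v, (m v : ℝ)) * Real.log G.indepNum ^ 2 ≤
        11796480 * (∑ v ∈ K, (m v : ℝ)) * (G.indepNum : ℝ) ^ 2 := by
  classical
  obtain ⟨K, hK, hK2⟩ := blow_cliqueNum G m
  refine ⟨K, hK, ?_⟩
  have h1 := (Pool.Agent.C4D.four_final (blow G m) (blow_free h m)).1
  rw [blow_indepNum G m hm] at h1
  have h2 : (Fintype.card (Σ v, Fin (m v)) : ℝ) = ∑ v, (m v : ℝ) := by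
    rw [Fintype.card_sigma]; simp
  rw [h2] at h1
  refine h1.trans ?_
  have h3 : ((blow G m).cliqueNum : ℝ) ≤ ∑ v ∈ K, (m v : ℝ) := by exact_mod_cast hK2
  gcongr

/-- real weights -/
theorem weight (G : SimpleGraph V) (h : IsEmpty (SimpleGraph.cycleGraph 4 ↪g G)) (w : V → ℝ)
    (hw : ∀ v, 0 ≤ w v) :
    ∃ K : Finset V, G.IsClique (K : Set V) ∧
      (∑ v, w v) * Real.log G.indepNum ^ 2 ≤
        11796480 * (∑ v ∈ K, w v) * (G.indepNum : ℝ) ^ 2 := by
  classical
  obtain ⟨K, hK, hmax⟩ := exists_max_image ((univ : Finset V).powerset.filter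
    (fun K : Finset V => G.IsClique (K : Set V))) (fun K : Finset V => ∑ v ∈ K, w v) ⟨∅, by simp⟩
  simp only [mem_filter, mem_powerset, subset_univ, true_and] at hK hmax
  refine ⟨K, hK, ?_⟩
  by_contra hlt
  push Not at hlt
  set L : ℝ := Real.log G.indepNum ^ 2 with hL
  set A : ℝ := (G.indepNum : ℝ) ^ 2 with hA
  have hL0 : 0 ≤ L := by positivity
  have hA0 : 0 ≤ A := by positivity
  set n : ℝ := (Fintype.card V : ℝ) with hn
  set D : ℝ := (∑ v, w v) * L - 11796480 * (∑ v ∈ K, w v) * A with hD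
  have hD0 : 0 < D := by rw [hD]; linarith
  obtain ⟨N, hN⟩ := exists_nat_gt (11796480 * n * A / D)
  have hN' : 11796480 * n * A < N * D := by
    rwa [div_lt_iff₀ hD0] at hN
  obtain ⟨K', hK', hb⟩ := nat_weight G h (fun v => ⌊(N : ℝ) * w v⌋₊ + 1) (fun v => Nat.succ_pos _)
  have hlow : (N : ℝ) * ∑ v, w v ≤ ∑ v, ((⌊(N : ℝ) * w v⌋₊ + 1 : ℕ) : ℝ) := by
    rw [mul_sum]
    refine sum_le_sum fun v _ => ?_
    push_cast
    exact (Nat.lt_floor_add_one _).le
  have hup : ∑ v ∈ K', ((⌊(N : ℝ) * w v⌋₊ + 1 : ℕ) : ℝ) ≤ (N : ℝ) * (∑ v ∈ K, w v) + n := by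
    calc ∑ v ∈ K', ((⌊(N : ℝ) * w v⌋₊ + 1 : ℕ) : ℝ) ≤ ∑ v ∈ K', ((N : ℝ) * w v + 1) := by
          refine sum_le_sum fun v _ => ?_
          push_cast
          have := Nat.floor_le (mul_nonneg (Nat.cast_nonneg N) (hw v))
          linarith
      _ = (N : ℝ) * (∑ v ∈ K', w v) + #K' := by
          rw [sum_add_distrib, ← mul_sum]; simp
      _ ≤ (N : ℝ) * (∑ v ∈ K, w v) + n := by
          have h1 := hmax K' hK'
          have h2 : (#K' : ℝ) ≤ n := by
            rw [hn]; exact_mod_cast card_le_univ K'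
          have h3 : (N : ℝ) * (∑ v ∈ K', w v) ≤ (N : ℝ) * (∑ v ∈ K, w v) :=
            mul_le_mul_of_nonneg_left h1 (Nat.cast_nonneg N)
          linarith
  have h1 : ((N : ℝ) * ∑ v, w v) * L ≤ 11796480 * ((N : ℝ) * (∑ v ∈ K, w v) + n) * A := by
    calc ((N : ℝ) * ∑ v, w v) * L ≤ (∑ v, ((⌊(N : ℝ) * w v⌋₊ + 1 : ℕ) : ℝ)) * L :=
          mul_le_mul_of_nonneg_right hlow hL0
      _ ≤ 11796480 * (∑ v ∈ K', ((⌊(N : ℝ) * w v⌋₊ + 1 : ℕ) : ℝ)) * A := hb
      _ ≤ 11796480 * ((N : ℝ) * (∑ v ∈ K, w v) + n) * A := by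
          refine mul_le_mul_of_nonneg_right ?_ hA0
          exact mul_le_mul_of_nonneg_left hup (by norm_num)
  have h2 : (N : ℝ) * D = ((N : ℝ) * ∑ v, w v) * L - 11796480 * ((N : ℝ) * (∑ v ∈ K, w v)) * A := by
    rw [hD]; ring
  nlinarith [h1, h2, hN']

end Pool.Agent.C4W
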